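import Mathlib
import Pool.Agent.Helper11.EKMain

/-! FINITE (for MP_7f94de_pr, helper94): laws with finite support, via helper11's theorem. -/

open MeasureTheory ProbabilityTheory Filter Topology

namespace Pool.Agent.Helper94.ES

namespace Finite

/-- copy of `MP_7f94de_pr.BoundedLaws` (helper11) -/
theorem bounded_laws :
    ∀ (Ω : Type*) [MeasurableSpace Ω] (P : Measure Ω) [IsProbabilityMeasure P]
      (Y : ℕ → Ω → ℂ),
      (∀ i, Measurable (Y i)) →
      iIndepFun Y P →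
      (∀ i, IdentDistrib (Y i) (Y 0) P P) →
      (¬ ∃ c : ℂ, ∀ᵐ ω ∂P, Y 0 ω = c) →
      (∃ M : ℝ, ∀ᵐ ω ∂P, ‖Y 0 ω‖ ≤ M) →
      (∃ j : ℕ, 1 ≤ j ∧ ∫ ω, (Y 0 ω) ^ j ∂P ≠ 0) →
      ∀ (k : ℕ → ℕ),
        Tendsto (fun n : ℕ => (k n : ℝ) / (n : ℝ)) atTop (𝓝 0) →
        ∀ ε : ℝ, 0 < ε →
          Tendsto
            (fun n : ℕ =>
              P {ω | ‖∑ s ∈ (Finset.range n).powersetCard (k n), ∏ i ∈ s, Y i ω‖
                    ≤ Real.exp (-(ε * (n : ℝ)))})
            atTop (𝓝 0) := by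
  intro Ω _ P _ Y hY hind hid hnd hbd hmom k hk ε hε
  obtain ⟨M, hM⟩ := hbd
  -- the scaling constant
  set K : ℝ := max M 1 with hK
  have hK1 : 1 ≤ K := le_max_right _ _
  have hKpos : 0 < K := by linarith
  have hKM : M ≤ K := le_max_left _ _
  -- truncation and scaling
  set g : ℂ → ℂ := fun y => if ‖y‖ ≤ K then y / (K : ℂ) else 0 with hg
  have hgm : Measurable g := by
    apply Measurable.ite (measurableSet_le measurable_norm measurable_const)
    · exact measurable_id.div_const _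
    · exact measurable_const
  have hgb : ∀ y, ‖g y‖ ≤ 1 := by
    intro y
    simp only [hg]
    split_ifs with h
    · rw [norm_div, Complex.norm_real, Real.norm_eq_abs, abs_of_pos hKpos, div_le_one hKpos]
      exact h
    · simp
  have hK0 : (K : ℂ) ≠ 0 := by exact_mod_cast hKpos.ne'
  -- almost surely all variables are bounded
  have hall : ∀ᵐ ω ∂P, ∀ i, ‖Y i ω‖ ≤ K := by
    rw [ae_all_iff]
    intro i
    have h0 : ∀ᵐ ω ∂P, ‖Y 0 ω‖ ≤ K := hM.mono (fun ω h => h.trans hKM)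
    have hset : MeasurableSet {y : ℂ | ‖y‖ ≤ K} := measurableSet_le measurable_norm measurable_const
    exact (hid i).symm.ae_snd hset h0
  have hgY : ∀ᵐ ω ∂P, ∀ i, Y i ω = (K : ℂ) * g (Y i ω) := by
    filter_upwards [hall] with ω hω i
    simp only [hg, if_pos (hω i)]
    field_simp
  set Y' : ℕ → Ω → ℂ := fun i ω => g (Y i ω) with hY'
  have hcore := Pool.Agent.Helper11.EK.core P Y' (fun i => hgm.comp (hY i))
    (hind.comp (fun _ => g) (fun _ => hgm)) (fun i => (hid i).comp hgm) (fun i ω => hgb _)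
    (by
      rintro ⟨c, hc⟩
      apply hnd
      refine ⟨(K : ℂ) * c, ?_⟩
      filter_upwards [hc, hgY] with ω h1 h2
      rw [h2 0]
      simp only [hY'] at h1
      rw [h1])
    (by
      obtain ⟨j, hj, hne⟩ := hmom
      refine ⟨j, hj, ?_⟩
      intro h0
      apply hne
      have : ∫ ω, (Y 0 ω) ^ j ∂P = ∫ ω, (K : ℂ) ^ j * (Y' 0 ω) ^ j ∂P := by
        apply integral_congr_ae
        filter_upwards [hgY] with ω h2
        simp only [hY']
        rw [← mul_pow, ← h2 0]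
      rw [this, integral_const_mul, h0, mul_zero])
    k hk ε hε
  refine tendsto_of_tendsto_of_tendsto_of_le_of_le tendsto_const_nhds hcore (fun n => zero_le) ?_
  intro n
  apply measure_mono_ae
  filter_upwards [hgY] with ω hω hmem
  have hmem' : ‖∑ s ∈ (Finset.range n).powersetCard (k n), ∏ i ∈ s, Y i ω‖
      ≤ Real.exp (-(ε * (n : ℝ))) := hmem
  have hsum : ∑ s ∈ (Finset.range n).powersetCard (k n), ∏ i ∈ s, Y i ω =
      (K : ℂ) ^ (k n) * ∑ s ∈ (Finset.range n).powersetCard (k n), ∏ i ∈ s, Y' i ω := by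
    rw [Finset.mul_sum]
    apply Finset.sum_congr rfl
    intro s hs
    rw [← (Finset.mem_powersetCard.1 hs).2, ← Finset.prod_const, ← Finset.prod_mul_distrib]
    apply Finset.prod_congr rfl
    intro i _
    exact hω i
  rw [hsum, norm_mul, norm_pow, Complex.norm_real, Real.norm_eq_abs, abs_of_pos hKpos] at hmem'
  have hp : 1 ≤ K ^ (k n) := one_le_pow₀ hK1
  change ‖∑ s ∈ (Finset.range n).powersetCard (k n), ∏ i ∈ s, Y' i ω‖
      ≤ Real.exp (-(ε * (n : ℝ)))
  refine le_trans ?_ hmem'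
  have := norm_nonneg (∑ s ∈ (Finset.range n).powersetCard (k n), ∏ i ∈ s, Y' i ω)
  nlinarith

end Finite

/-- FINITE support case, via helper11's BoundedLaws theorem. -/
theorem finite_support_case
    (Ω : Type) [MeasurableSpace Ω] (P : Measure Ω) [IsProbabilityMeasure P]
    (Y : ℕ → Ω → ℂ) (hm : ∀ i, Measurable (Y i)) (hi : iIndepFun Y P)
    (hd : ∀ i, IdentDistrib (Y i) (Y 0) P P)
    (hnd : ¬ ∃ c : ℂ, ∀ᵐ ω ∂P, Y 0 ω = c)
    (hfin : ∃ S : Finset ℂ, ∀ᵐ ω ∂P, Y 0 ω ∈ S)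
    (k : ℕ → ℕ) (hk : Tendsto (fun n : ℕ => (k n : ℝ) / (n : ℝ)) atTop (𝓝 0))
    (ε : ℝ) (hε : 0 < ε) :
    Tendsto (fun n : ℕ => P {ω | ‖∑ s ∈ (Finset.range n).powersetCard (k n), ∏ i ∈ s, Y i ω‖
        ≤ Real.exp (-(ε * (n : ℝ)))}) atTop (𝓝 0) := by
  classical
  obtain ⟨S, hS⟩ := hfin
  have hbd : ∃ M : ℝ, ∀ᵐ ω ∂P, ‖Y 0 ω‖ ≤ M := by
    refine ⟨∑ z ∈ S, ‖z‖, ?_⟩
    filter_upwards [hS] with ω hω
    exact Finset.single_le_sum (f := fun z => ‖z‖) (fun z _ => norm_nonneg z) hω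
  refine Finite.bounded_laws Ω P Y hm hi hd hnd hbd ?_ k hk ε hε
  by_contra hcon
  push Not at hcon
  obtain ⟨M, hM⟩ := hbd
  have hint : ∀ j : ℕ, Integrable (fun ω => (Y 0 ω) ^ j) P := by
    intro j
    refine Integrable.of_bound ((hm 0).pow_const j).aestronglyMeasurable (M ^ j) ?_
    filter_upwards [hM] with ω hω
    rw [norm_pow]
    exact pow_le_pow_left₀ (norm_nonneg _) hω j
  have hpoly : ∀ q : Polynomial ℂ, q.eval 0 = 0 → ∫ ω, q.eval (Y 0 ω) ∂P = 0 := by
    intro q hq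
    have h1 : ∀ ω, q.eval (Y 0 ω) =
        ∑ j ∈ Finset.range (q.natDegree + 1), q.coeff j * (Y 0 ω) ^ j :=
      fun ω => Polynomial.eval_eq_sum_range (Y 0 ω)
    simp_rw [h1]
    rw [integral_finsetSum _ (fun j _ => (hint j).const_mul _)]
    refine Finset.sum_eq_zero (fun j _ => ?_)
    rw [integral_const_mul]
    rcases Nat.eq_zero_or_pos j with hj | hj
    · rw [hj, Polynomial.coeff_zero_eq_eval_zero, hq, zero_mul]
    · rw [hcon j hj, mul_zero]
  have hatom : ∀ z ∈ S, z ≠ 0 → P {ω | Y 0 ω = z} = 0 := by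
    intro z hz hz0
    set q : Polynomial ℂ := Polynomial.X * ∏ w ∈ S.erase z, (Polynomial.X - Polynomial.C w) with hq
    have hq0 : q.eval 0 = 0 := by rw [hq, Polynomial.eval_mul, Polynomial.eval_X, zero_mul]
    have hqz : q.eval z ≠ 0 := by
      rw [hq, Polynomial.eval_mul, Polynomial.eval_X, Polynomial.eval_prod]
      refine mul_ne_zero hz0 (Finset.prod_ne_zero_iff.2 (fun w hw => ?_))
      rw [Polynomial.eval_sub, Polynomial.eval_X, Polynomial.eval_C, sub_ne_zero]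
      exact (Finset.ne_of_mem_erase hw).symm
    have hms : MeasurableSet {ω | Y 0 ω = z} := hm 0 (measurableSet_singleton z)
    have h2 : (fun ω => q.eval (Y 0 ω)) =ᵐ[P] {ω | Y 0 ω = z}.indicator (fun _ => q.eval z) := by
      filter_upwards [hS] with ω hω
      by_cases h : Y 0 ω = z
      · rw [Set.indicator_of_mem (show ω ∈ {ω | Y 0 ω = z} from h), h]
      · rw [Set.indicator_of_notMem (show ω ∉ {ω | Y 0 ω = z} from h), hq, Polynomial.eval_mul,
          Polynomial.eval_prod]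
        refine mul_eq_zero_of_right _ (Finset.prod_eq_zero (Finset.mem_erase.2 ⟨h, hω⟩) ?_)
        rw [Polynomial.eval_sub, Polynomial.eval_X, Polynomial.eval_C, sub_self]
    have h3 := hpoly q hq0
    rw [integral_congr_ae h2, integral_indicator_const _ hms] at h3
    rcases smul_eq_zero.1 h3 with h4 | h4
    · exact (measureReal_eq_zero_iff (measure_ne_top P _)).1 h4
    · exact absurd h4 hqz
  apply hnd
  refine ⟨0, ?_⟩
  have h5 : ∀ᵐ ω ∂P, ∀ z ∈ S, z ≠ 0 → Y 0 ω ≠ z := by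
    rw [Filter.eventually_all_finset]
    intro z hz
    by_cases hz0 : z = 0
    · exact Filter.Eventually.of_forall (fun ω h => absurd hz0 h)
    · have := measure_eq_zero_iff_ae_notMem.1 (hatom z hz hz0)
      filter_upwards [this] with ω hω _
      exact hω
  filter_upwards [h5, hS] with ω h6 h7
  by_contra h8
  exact h6 (Y 0 ω) h7 h8 rfl

end Pool.Agent.Helper94.ES
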