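import Pool.Agent.Helper94.ES.Interp

/-! MB (for MP_7f94de_pr, helper94): bound for the sum of the poles. -/

open Finset Polynomial

namespace Pool.Agent.Helper94.ES

section MB
variable {ι : Type*} [DecidableEq ι]

namespace MBound

theorem lag {α β : ι → ℂ} (G : Finset ι) (M : ℂ[X]) (hM : M.degree < G.card) (t : ℂ)
    (hL : ∀ g ∈ G, ‖α g * t + β g‖ ≤ 1) (hα : ∀ g ∈ G, α g ≠ 0) {lam : ℝ} (hlam : 0 < lam)
    (hG : ∀ g ∈ G, lam ≤ ∏ g' ∈ G.erase g, ‖br α β g g'‖) {bd : ℝ}
    (h : ∀ g ∈ G, ‖α g‖ ^ G.card * ‖M.eval (tt α β g)‖ ≤ ‖α g‖ * bd) :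
    ‖M.eval t‖ ≤ G.card * bd / lam := by
  have hbr : ∀ g ∈ G, ∀ g' ∈ G, g ≠ g' → br α β g g' ≠ 0 := by
    intro a ha b hb hab h0
    have h1 := hG a ha
    have h2 : ∏ b ∈ G.erase a, ‖br α β a b‖ = 0 :=
      Finset.prod_eq_zero (Finset.mem_erase.2 ⟨hab.symm, hb⟩) (by rw [h0, norm_zero])
    linarith
  have hsub : ∀ g ∈ G, ∀ g' ∈ G, tt α β g - tt α β g' = br α β g g' / (α g * α g') := by
    intro g hg g' hg'
    have h1 := hα g hg
    have h2 := hα g' hg'
    unfold tt br
    field_simp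
    ring
  have hinj : Set.InjOn (tt α β) G := by
    intro g hg g' hg' hgg
    by_contra hne
    have h1 := hsub g hg g' hg'
    rw [hgg, sub_self] at h1
    have h2 : br α β g g' / (α g * α g') ≠ 0 :=
      div_ne_zero (hbr g hg g' hg' hne) (mul_ne_zero (hα g hg) (hα g' hg'))
    exact h2 h1.symm
  have e := Lagrange.eq_interpolate hinj hM
  have e2 : M.eval t = ∑ g ∈ G, M.eval (tt α β g) *
      ∏ g' ∈ G.erase g, (α g * (α g' * t + β g') / br α β g g') := by
    conv_lhs => rw [e]
    rw [Lagrange.interpolate_apply, eval_finsetSum]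
    refine Finset.sum_congr rfl (fun g hg => ?_)
    rw [eval_mul, eval_C, Lagrange.basis, eval_prod]
    congr 1
    refine Finset.prod_congr rfl (fun g' hg' => ?_)
    have hg'G := Finset.mem_of_mem_erase hg'
    rw [Lagrange.basisDivisor, eval_mul, eval_C, eval_sub, eval_X, eval_C, hsub g hg g' hg'G]
    have h1 := hα g hg
    have h2 := hα g' hg'G
    have h3 := hbr g hg g' hg'G (Finset.ne_of_mem_erase hg').symm
    rw [tt]
    field_simp
    ring
  rw [e2]
  refine (norm_sum_le _ _).trans ?_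
  have hterm : ∀ g ∈ G, ‖M.eval (tt α β g) *
      ∏ g' ∈ G.erase g, (α g * (α g' * t + β g') / br α β g g')‖ ≤ bd / lam := by
    intro g hg
    have hpos : 0 < ‖α g‖ := norm_pos_iff.2 (hα g hg)
    have hcard : G.card = (G.erase g).card + 1 := (Finset.card_erase_add_one hg).symm
    have h1 : ‖α g‖ ^ (G.erase g).card * ‖M.eval (tt α β g)‖ ≤ bd := by
      have h2 := h g hg
      rw [hcard, pow_succ] at h2
      have h3 : ‖α g‖ * (‖α g‖ ^ (G.erase g).card * ‖M.eval (tt α β g)‖) ≤ ‖α g‖ * bd := by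
        linarith [mul_comm (‖α g‖ ^ (G.erase g).card) ‖α g‖]
      exact le_of_mul_le_mul_left h3 hpos
    have hbd : 0 ≤ bd := le_trans (by positivity) h1
    rw [norm_mul, norm_prod]
    have h4 : ∏ g' ∈ G.erase g, ‖α g * (α g' * t + β g') / br α β g g'‖ ≤
        ‖α g‖ ^ (G.erase g).card / lam := by
      have h5 : ∏ g' ∈ G.erase g, ‖α g * (α g' * t + β g') / br α β g g'‖ =
          ‖α g‖ ^ (G.erase g).card * (∏ g' ∈ G.erase g, ‖α g' * t + β g'‖) /
            ∏ g' ∈ G.erase g, ‖br α β g g'‖ := by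
        rw [← Finset.prod_const, ← Finset.prod_mul_distrib, ← Finset.prod_div_distrib]
        refine Finset.prod_congr rfl (fun g' _ => ?_)
        rw [norm_div, norm_mul]
      rw [h5]
      have h6 : ∏ g' ∈ G.erase g, ‖α g' * t + β g'‖ ≤ 1 :=
        Finset.prod_le_one (fun _ _ => norm_nonneg _)
          (fun g' hg' => hL g' (Finset.mem_of_mem_erase hg'))
      refine div_le_div₀ (by positivity) ?_ hlam (hG g hg)
      calc _ ≤ ‖α g‖ ^ (G.erase g).card * 1 := by gcongr
        _ = _ := mul_one _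
    calc ‖M.eval (tt α β g)‖ * ∏ g' ∈ G.erase g, ‖α g * (α g' * t + β g') / br α β g g'‖
        ≤ ‖M.eval (tt α β g)‖ * (‖α g‖ ^ (G.erase g).card / lam) := by gcongr
      _ = (‖α g‖ ^ (G.erase g).card * ‖M.eval (tt α β g)‖) / lam := by ring
      _ ≤ bd / lam := by gcongr
  refine (Finset.sum_le_sum hterm).trans (le_of_eq ?_)
  rw [Finset.sum_const, nsmul_eq_mul]
  ring

end MBound

open MBound in
/-- MB -/
theorem M_bound (α β : ι → ℂ) (A : Finset ι) (hA : ∀ i ∈ A, ‖α i‖ + ‖β i‖ = 1)
    (hα : ∀ i ∈ A, α i ≠ 0) (K : ℕ) (hK : K ≤ A.card)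
    (B : Finset ι) (hB : ∀ a ∈ B, ‖α a‖ + ‖β a‖ = 1)
    (ω s τ1 τ3 lam δ0 : ℝ) (hω0 : 0 ≤ ω) (hs : 0 < s) (hτ1 : 0 ≤ τ1) (hτ3 : 0 ≤ τ3)
    (hlam : 0 < lam) (hδ0 : 0 < δ0)
    (hω : ∀ i ∈ A, ‖EE α β (A.erase i) K‖ * ∏ a ∈ B, ‖br α β i a‖ ≤ ω)
    (G : Finset ι) (hGA : G ⊆ A) (hGB : G.card = B.card)
    (hG : ∀ g ∈ G, lam ≤ ∏ g' ∈ G.erase g, ‖br α β g g'‖)
    (h1 : ∀ g ∈ G, ‖EE α β (A.erase g) K‖ ≤ τ1)
    (h3 : ∀ g ∈ G, ∀ i ∈ A, i ≠ g → ‖br α β i g‖ < s → ‖EE α β ((A.erase g).erase i) K‖ ≤ τ3)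
    (t : ℂ) (ht : ‖t‖ ≤ 1) (hL : ∀ i ∈ A, δ0 ≤ ‖α i * t + β i‖) :
    ‖(NN α β B).eval t‖ * ‖∑ i ∈ A, (α i * β i * EE α β (A.erase i) K) / (α i * t + β i)‖
      ≤ B.card * (A.card * (2 ^ B.card * ω / s + τ1 / s + τ1 + τ3 + 2 ^ (B.card + 2) * (τ1 + s))) / lam
        + A.card * (2 ^ B.card * ω / δ0) := by
  classical
  set E : ι → ℂ := fun i => EE α β (A.erase i) K with hE
  set c : ι → ℂ := fun i => α i * β i * E i with hc
  set b := B.card with hb
  have hα1 : ∀ i ∈ A, ‖α i‖ ≤ 1 := fun i hi => by linarith [hA i hi, norm_nonneg (β i)]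
  have hβ1 : ∀ i ∈ A, ‖β i‖ ≤ 1 := fun i hi => by linarith [hA i hi, norm_nonneg (α i)]
  have hcE : ∀ i ∈ A, ‖c i‖ ≤ ‖E i‖ := by
    intro i hi
    rw [hc]
    show ‖α i * β i * E i‖ ≤ ‖E i‖
    rw [norm_mul, norm_mul]
    calc ‖α i‖ * ‖β i‖ * ‖E i‖ ≤ 1 * 1 * ‖E i‖ := by
          gcongr
          · exact hα1 i hi
          · exact hβ1 i hi
      _ = _ := by ring
  have hDR : ∀ i, ∃ D R : ℂ[X], i ∈ A → (NN α β B = D * LL α β i + R ∧ D.degree < B.card ∧
      R.natDegree ≤ B.card ∧
      (∀ t : ℂ, ‖t‖ ≤ 1 → ‖R.eval t‖ ≤ 2 ^ B.card * ∏ a ∈ B, ‖br α β i a‖) ∧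
      (∀ g : ι, α g ≠ 0 → ‖α g‖ + ‖β g‖ = 1 →
        ‖α g‖ ^ B.card * ‖R.eval (tt α β g)‖ ≤ 2 ^ B.card * ∏ a ∈ B, ‖br α β i a‖) ∧
      (∀ g : ι, α g ≠ 0 → ‖α g‖ + ‖β g‖ = 1 →
        ‖α g‖ ^ B.card * ‖D.eval (tt α β g)‖ ≤ ‖α g‖ * 2 ^ (B.card + 1))) := by
    intro i
    by_cases hi : i ∈ A
    · obtain ⟨D, R, h⟩ := exists_DR (α := α) (β := β) (hA i hi) B hB
      exact ⟨D, R, fun _ => h⟩
    · exact ⟨0, 0, fun h => absurd h hi⟩
  choose D R hDR using hDR
  set M : ℂ[X] := ∑ i ∈ A, C (c i) * D i with hM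
  have hMdeg : M.degree < G.card := by
    rw [hGB]
    refine lt_of_le_of_lt (degree_sum_le _ _) ?_
    rw [Finset.sup_lt_iff (by exact_mod_cast WithBot.bot_lt_coe _)]
    intro i hi
    refine lt_of_le_of_lt ?_ (hDR i hi).2.1
    rcases eq_or_ne (c i) 0 with h0 | h0
    · rw [h0, C_0, zero_mul, degree_zero]; exact bot_le
    · rw [degree_C_mul h0]
  -- the value at `t`
  have hval : (NN α β B).eval t * ∑ i ∈ A, c i / (α i * t + β i) =
      M.eval t + ∑ i ∈ A, c i * (R i).eval t / (α i * t + β i) := by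
    rw [hM, eval_finsetSum, Finset.mul_sum, ← Finset.sum_add_distrib]
    refine Finset.sum_congr rfl (fun i hi => ?_)
    have hne : α i * t + β i ≠ 0 := by
      rw [← norm_pos_iff]; exact lt_of_lt_of_le hδ0 (hL i hi)
    have h4 := congrArg (Polynomial.eval t) (hDR i hi).1
    rw [eval_add, eval_mul, LL_eval] at h4
    rw [h4, eval_mul, eval_C]
    field_simp
  have hR : ‖∑ i ∈ A, c i * (R i).eval t / (α i * t + β i)‖ ≤
      A.card * (2 ^ b * ω / δ0) := by
    refine (norm_sum_le _ _).trans ?_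
    have : ∀ i ∈ A, ‖c i * (R i).eval t / (α i * t + β i)‖ ≤ 2 ^ b * ω / δ0 := by
      intro i hi
      rw [norm_div, norm_mul]
      refine div_le_div₀ (by positivity) ?_ hδ0 (hL i hi)
      calc ‖c i‖ * ‖(R i).eval t‖ ≤ ‖E i‖ * (2 ^ b * ∏ a ∈ B, ‖br α β i a‖) :=
            mul_le_mul (hcE i hi) ((hDR i hi).2.2.2.1 t ht) (norm_nonneg _) (norm_nonneg _)
        _ = 2 ^ b * (‖E i‖ * ∏ a ∈ B, ‖br α β i a‖) := by ring
        _ ≤ 2 ^ b * ω := by
            have := hω i hi
            gcongr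
    refine (Finset.sum_le_sum this).trans (le_of_eq ?_)
    rw [Finset.sum_const, nsmul_eq_mul]
  -- the value at the nodes
  set bd : ℝ := A.card * (2 ^ b * ω / s + τ1 / s + τ1 + τ3 + 2 ^ (b + 2) * (τ1 + s)) with hbd
  have hnode : ∀ g ∈ G, ‖α g‖ ^ G.card * ‖M.eval (tt α β g)‖ ≤ ‖α g‖ * bd := by
    intro g hg
    have hgA := hGA hg
    have hgn := hA g hgA
    have hg0 := hα g hgA
    rw [hGB]
    set T := tt α β g with hT
    set far := A.filter (fun i => s ≤ ‖br α β i g‖) with hfar
    set near := A.filter (fun i => ¬ s ≤ ‖br α β i g‖) with hnear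
    have hsplit : α g ^ b * M.eval T =
        ∑ i ∈ far, c i * (α g ^ b * (D i).eval T) + ∑ i ∈ near, c i * (α g ^ b * (D i).eval T) := by
      rw [hfar, hnear, Finset.sum_filter_add_sum_filter_not, hM, eval_finsetSum, Finset.mul_sum]
      refine Finset.sum_congr rfl (fun i _ => ?_)
      rw [eval_mul, eval_C]
      ring
    have hE1 : ‖E g‖ ≤ τ1 := h1 g hg
    have hnorm : ‖α g‖ ^ b * ‖M.eval T‖ = ‖α g ^ b * M.eval T‖ := by rw [norm_mul, norm_pow]
    -- near part
    have hnearb : ‖∑ i ∈ near, c i * (α g ^ b * (D i).eval T)‖ ≤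
        ‖α g‖ * (A.card * (2 ^ (b + 2) * (τ1 + s))) := by
      refine (norm_sum_le _ _).trans ?_
      have h4 : ∀ i ∈ near, ‖c i * (α g ^ b * (D i).eval T)‖ ≤
          ‖α g‖ * (2 ^ (b + 2) * (τ1 + s)) := by
        intro i hi
        rw [hnear, Finset.mem_filter] at hi
        obtain ⟨hiA, hi2⟩ := hi
        push Not at hi2
        have h5 : ‖c i‖ ≤ 2 * (τ1 + s) := by
          refine (hcE i hiA).trans ?_
          by_cases hig : i = g
          · rw [hig]; linarith
          · have h6 := norm_EE_erase_le hA hiA hgA hig K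
            have h7 : ‖E i‖ ≤ 2 * (‖E g‖ + ‖br α β i g‖) := h6
            linarith
        have h6 := (hDR i hiA).2.2.2.2.2 g hg0 hgn
        rw [norm_mul (c i), norm_mul (α g ^ b), norm_pow]
        calc ‖c i‖ * (‖α g‖ ^ b * ‖(D i).eval T‖) ≤
            (2 * (τ1 + s)) * (‖α g‖ * 2 ^ (b + 1)) :=
              mul_le_mul h5 h6 (by positivity) (by positivity)
          _ = _ := by rw [pow_succ 2 (b + 1)]; ring
      refine (Finset.sum_le_sum h4).trans ?_
      rw [Finset.sum_const, nsmul_eq_mul]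
      have h5 : (near.card : ℝ) ≤ A.card := by
        exact_mod_cast Finset.card_le_card (Finset.filter_subset _ _)
      have h6 : 0 ≤ ‖α g‖ * (2 ^ (b + 2) * (τ1 + s)) := by positivity
      calc _ ≤ (A.card : ℝ) * (‖α g‖ * (2 ^ (b + 2) * (τ1 + s))) :=
            mul_le_mul_of_nonneg_right h5 h6
        _ = _ := by ring
    -- far part
    have hfarb : ‖∑ i ∈ far, c i * (α g ^ b * (D i).eval T)‖ ≤
        ‖α g‖ * (A.card * (2 ^ b * ω / s + τ1 / s + τ1 + τ3)) := by
      have hbrne : ∀ i ∈ far, br α β g i ≠ 0 := by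
        intro i hi
        rw [hfar, Finset.mem_filter] at hi
        rw [br_swap, neg_ne_zero, ← norm_pos_iff]
        exact lt_of_lt_of_le hs hi.2
      have hfarne : ∀ i ∈ far, i ≠ g := by
        intro i hi h4
        rw [hfar, Finset.mem_filter] at hi
        rw [h4, br_self, norm_zero] at hi
        linarith [hi.2]
      have hbrs : ∀ i ∈ far, s ≤ ‖br α β g i‖ := by
        intro i hi
        rw [hfar, Finset.mem_filter] at hi
        rw [br_swap, norm_neg]
        exact hi.2
      have hfarA : ∀ i ∈ far, i ∈ A := fun i hi => (Finset.mem_filter.1 hi).1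
      set NT : ℂ := α g ^ b * (NN α β B).eval T with hNT
      have hDval : ∀ i ∈ far, c i * (α g ^ b * (D i).eval T) =
          α g * (NT * (c i / br α β g i) - c i * (α g ^ b * (R i).eval T) / br α β g i) := by
        intro i hi
        have h4 := congrArg (Polynomial.eval T) (hDR i (hfarA i hi)).1
        rw [eval_add, eval_mul] at h4
        have h5 := LL_eval_tt (α := α) (β := β) hg0 i
        have h6 := hbrne i hi
        rw [hNT, h4, ← h5]
        have h7 : (LL α β i).eval (tt α β g) ≠ 0 := by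
          intro h8
          rw [h8, mul_zero] at h5
          exact h6 h5.symm
        rw [hT]
        field_simp
        ring
      rw [Finset.sum_congr rfl hDval, ← Finset.mul_sum, norm_mul, Finset.sum_sub_distrib,
        ← Finset.mul_sum]
      refine mul_le_mul_of_nonneg_left ?_ (norm_nonneg _)
      have hNT1 : ‖NT‖ ≤ 1 := by
        have h4 : NT = ∏ a ∈ B, br α β g a := by
          rw [hNT, hb, NN, eval_prod, ← Finset.prod_const, ← Finset.prod_mul_distrib]
          refine Finset.prod_congr rfl (fun a _ => ?_)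
          exact LL_eval_tt hg0 a
        rw [h4, norm_prod]
        exact Finset.prod_le_one (fun _ _ => norm_nonneg _)
          (fun a ha => norm_br_le_one hgn.le (hB a ha).le)
      have hS2 : ‖∑ i ∈ far, c i * (α g ^ b * (R i).eval T) / br α β g i‖ ≤
          A.card * (2 ^ b * ω / s) := by
        refine (norm_sum_le _ _).trans ?_
        have h4 : ∀ i ∈ far, ‖c i * (α g ^ b * (R i).eval T) / br α β g i‖ ≤ 2 ^ b * ω / s := by
          intro i hi
          have hiA := hfarA i hi
          rw [norm_div, norm_mul (c i), norm_mul (α g ^ b), norm_pow]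
          refine div_le_div₀ (by positivity) ?_ hs (hbrs i hi)
          calc ‖c i‖ * (‖α g‖ ^ b * ‖(R i).eval T‖) ≤
              ‖E i‖ * (2 ^ b * ∏ a ∈ B, ‖br α β i a‖) :=
                mul_le_mul (hcE i hiA) ((hDR i hiA).2.2.2.2.1 g hg0 hgn) (by positivity)
                  (norm_nonneg _)
            _ = 2 ^ b * (‖E i‖ * ∏ a ∈ B, ‖br α β i a‖) := by ring
            _ ≤ 2 ^ b * ω := by
                have := hω i hiA
                gcongr
        refine (Finset.sum_le_sum h4).trans ?_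
        rw [Finset.sum_const, nsmul_eq_mul]
        have h5 : (far.card : ℝ) ≤ A.card := by
          exact_mod_cast Finset.card_le_card (Finset.filter_subset _ _)
        exact mul_le_mul_of_nonneg_right h5 (by positivity)
      have hS1 : ‖∑ i ∈ far, c i / br α β g i‖ ≤ A.card * (τ1 / s + τ1 + τ3) := by
        have h4 : ∀ i ∈ far, c i / br α β g i = α i * (β g * E g) / br α β g i +
            α i * EE α β ((A.erase g).erase i) K := by
          intro i hi
          have h5 := exch_beta (α := α) (β := β) (hfarA i hi) hgA (hfarne i hi) K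
          have h6 := hbrne i hi
          rw [Finset.erase_right_comm, br_swap g i, neg_neg] at h5
          have h7 : β i * E i = β g * E g + br α β g i * EE α β ((A.erase g).erase i) K := by
            show β i * EE α β (A.erase i) K = β g * EE α β (A.erase g) K +
              br α β g i * EE α β ((A.erase g).erase i) K
            linear_combination h5
          show α i * β i * E i / br α β g i = _
          rw [mul_assoc, h7]
          field_simp
        rw [Finset.sum_congr rfl h4, Finset.sum_add_distrib]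
        have h5 : ‖∑ i ∈ far, α i * (β g * E g) / br α β g i‖ ≤ A.card * (τ1 / s) := by
          refine (norm_sum_le _ _).trans ?_
          have h6 : ∀ i ∈ far, ‖α i * (β g * E g) / br α β g i‖ ≤ τ1 / s := by
            intro i hi
            rw [norm_div, norm_mul, norm_mul]
            refine div_le_div₀ hτ1 ?_ hs (hbrs i hi)
            calc ‖α i‖ * (‖β g‖ * ‖E g‖) ≤ 1 * (1 * τ1) := by
                  gcongr
                  · exact hα1 i (hfarA i hi)
                  · exact hβ1 g hgA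
              _ = τ1 := by ring
          refine (Finset.sum_le_sum h6).trans ?_
          rw [Finset.sum_const, nsmul_eq_mul]
          have h7 : (far.card : ℝ) ≤ A.card := by
            exact_mod_cast Finset.card_le_card (Finset.filter_subset _ _)
          exact mul_le_mul_of_nonneg_right h7 (by positivity)
        have h6 : ∑ i ∈ far, α i * EE α β ((A.erase g).erase i) K =
            ∑ i ∈ A.erase g, α i * EE α β ((A.erase g).erase i) K -
            ∑ i ∈ (A.erase g) \ far, α i * EE α β ((A.erase g).erase i) K := by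
          have h7 : far ⊆ A.erase g := fun i hi => Finset.mem_erase.2 ⟨hfarne i hi, hfarA i hi⟩
          rw [← Finset.sum_sdiff h7]
          ring
        have h7 : ‖∑ i ∈ A.erase g, α i * EE α β ((A.erase g).erase i) K‖ ≤ A.card * τ1 := by
          rw [sum_alpha_EE_erase, norm_mul]
          refine mul_le_mul ?_ hE1 (norm_nonneg _) (by positivity)
          have h8 : ((A.erase g).card : ℂ) = (A.card : ℂ) - 1 := by
            rw [← Finset.card_erase_add_one hgA]; push_cast; ring
          have h9 : (((A.erase g).card : ℂ) - K) = (((A.card : ℝ) - 1 - K : ℝ) : ℂ) := by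
            rw [h8]; push_cast; ring
          rw [h9, Complex.norm_real, Real.norm_eq_abs, abs_le]
          have hK' : (K : ℝ) ≤ A.card := by exact_mod_cast hK
          have hK0 : (0 : ℝ) ≤ K := Nat.cast_nonneg _
          have hA1 : (1 : ℝ) ≤ A.card := by
            exact_mod_cast Finset.card_pos.2 ⟨g, hgA⟩
          constructor
          · linarith
          · linarith
        have h8 : ‖∑ i ∈ (A.erase g) \ far, α i * EE α β ((A.erase g).erase i) K‖ ≤
            A.card * τ3 := by
          refine (norm_sum_le _ _).trans ?_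
          have h9 : ∀ i ∈ (A.erase g) \ far, ‖α i * EE α β ((A.erase g).erase i) K‖ ≤ τ3 := by
            intro i hi
            rw [Finset.mem_sdiff, Finset.mem_erase, hfar, Finset.mem_filter] at hi
            obtain ⟨⟨hig, hiA⟩, hi2⟩ := hi
            have hi3 : ‖br α β i g‖ < s := by
              by_contra hcon
              exact hi2 ⟨hiA, not_lt.1 hcon⟩
            rw [norm_mul]
            calc ‖α i‖ * ‖EE α β ((A.erase g).erase i) K‖ ≤ 1 * τ3 := by
                  gcongr
                  · exact hα1 i hiA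
                  · exact h3 g hg i hiA hig hi3
              _ = τ3 := one_mul _
          refine (Finset.sum_le_sum h9).trans ?_
          rw [Finset.sum_const, nsmul_eq_mul]
          have h10 : ((((A.erase g) \ far).card : ℕ) : ℝ) ≤ A.card := by
            exact_mod_cast Finset.card_le_card
              (Finset.sdiff_subset.trans (Finset.erase_subset _ _))
          exact mul_le_mul_of_nonneg_right h10 hτ3
        rw [h6]
        calc _ ≤ ‖∑ i ∈ far, α i * (β g * E g) / br α β g i‖ +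
              ‖∑ i ∈ A.erase g, α i * EE α β ((A.erase g).erase i) K -
                ∑ i ∈ (A.erase g) \ far, α i * EE α β ((A.erase g).erase i) K‖ := norm_add_le _ _
          _ ≤ A.card * (τ1 / s) + (A.card * τ1 + A.card * τ3) := by
              refine add_le_add h5 ((norm_sub_le _ _).trans (add_le_add h7 h8))
          _ = _ := by ring
      calc _ ≤ ‖NT * ∑ i ∈ far, c i / br α β g i‖ +
            ‖∑ i ∈ far, c i * (α g ^ b * (R i).eval T) / br α β g i‖ := norm_sub_le _ _
        _ ≤ 1 * (A.card * (τ1 / s + τ1 + τ3)) + A.card * (2 ^ b * ω / s) := by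
            rw [norm_mul]
            refine add_le_add (mul_le_mul hNT1 hS1 (norm_nonneg _) zero_le_one) hS2
        _ = _ := by ring
    rw [hnorm, hsplit]
    calc _ ≤ _ := norm_add_le _ _
      _ ≤ ‖α g‖ * (A.card * (2 ^ b * ω / s + τ1 / s + τ1 + τ3)) +
          ‖α g‖ * (A.card * (2 ^ (b + 2) * (τ1 + s))) := add_le_add hfarb hnearb
      _ = _ := by rw [hbd]; ring
  have hMt := lag (α := α) (β := β) G M hMdeg t (fun g hg => by
    have h4 := hA g (hGA hg)
    calc ‖α g * t + β g‖ ≤ ‖α g‖ * ‖t‖ + ‖β g‖ := by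
          refine (norm_add_le _ _).trans ?_
          rw [norm_mul]
      _ ≤ ‖α g‖ * 1 + ‖β g‖ := by gcongr
      _ = 1 := by rw [mul_one]; exact h4) (fun g hg => hα g (hGA hg)) hlam hG hnode
  rw [← norm_mul]
  have hfin : (NN α β B).eval t * ∑ i ∈ A, (α i * β i * EE α β (A.erase i) K) / (α i * t + β i) =
      M.eval t + ∑ i ∈ A, c i * (R i).eval t / (α i * t + β i) := hval
  rw [hfin]
  refine (norm_add_le _ _).trans (add_le_add ?_ hR)
  rw [hGB] at hMt
  exact hMt

end MB

end Pool.Agent.Helper94.ES
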