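import Mathlib

/-! NODES (for MP_7f94de_pr, helper94). -/

open Finset

namespace Pool.Agent.Helper94.ES

section Nodes
variable {ι : Type*} [DecidableEq ι]

namespace Nodes

/-- the product over ordered pairs -/
noncomputable def W (u : ι → ι → ℝ) (B : Finset ι) : ℝ := ∏ a ∈ B, ∏ b ∈ B.erase a, u a b

lemma W_insert (u : ι → ι → ℝ) {B : Finset ι} {i : ι} (hi : i ∉ B)
    (hs : ∀ a ∈ B, u a i = u i a) :
    W u (insert i B) = W u B * (∏ a ∈ B, u i a) ^ 2 := by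
  rw [W, Finset.prod_insert hi, Finset.erase_insert hi]
  have h1 : ∏ a ∈ B, ∏ b ∈ (insert i B).erase a, u a b =
      (∏ a ∈ B, u i a) * ∏ a ∈ B, ∏ b ∈ B.erase a, u a b := by
    rw [← Finset.prod_mul_distrib]
    refine Finset.prod_congr rfl (fun a ha => ?_)
    have hne : i ≠ a := fun h => hi (h ▸ ha)
    rw [Finset.erase_insert_of_ne hne, Finset.prod_insert (by
      intro h; exact hi (Finset.mem_of_mem_erase h)), hs a ha]
  rw [h1, W]
  ring

lemma W_nonneg (u : ι → ι → ℝ) (P : Finset ι) (hu0 : ∀ i ∈ P, ∀ j ∈ P, 0 ≤ u i j)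
    {B : Finset ι} (hB : B ⊆ P) : 0 ≤ W u B :=
  Finset.prod_nonneg fun a ha => Finset.prod_nonneg fun b hb =>
    hu0 a (hB ha) b (hB (Finset.mem_of_mem_erase hb))

lemma W_le_one (u : ι → ι → ℝ) (P : Finset ι) (hu0 : ∀ i ∈ P, ∀ j ∈ P, 0 ≤ u i j)
    (hu1 : ∀ i ∈ P, ∀ j ∈ P, u i j ≤ 1)
    {B : Finset ι} (hB : B ⊆ P) : W u B ≤ 1 :=
  Finset.prod_le_one
    (fun a ha => Finset.prod_nonneg fun b hb =>
      hu0 a (hB ha) b (hB (Finset.mem_of_mem_erase hb)))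
    fun a ha => Finset.prod_le_one
      (fun b hb => hu0 a (hB ha) b (hB (Finset.mem_of_mem_erase hb)))
      fun b hb => hu1 a (hB ha) b (hB (Finset.mem_of_mem_erase hb))

end Nodes

open Nodes

/-- NODES -/
theorem exists_nodes (P : Finset ι) (u : ι → ι → ℝ) (hu0 : ∀ i ∈ P, ∀ j ∈ P, 0 ≤ u i j)
    (hu1 : ∀ i ∈ P, ∀ j ∈ P, u i j ≤ 1) (hsymm : ∀ i ∈ P, ∀ j ∈ P, u i j = u j i)
    (κ : ℝ) (hκ0 : 0 < κ) (hκ1 : κ < 1) :
    ∃ N ⊆ P, (∀ a ∈ N, κ ≤ ∏ b ∈ N.erase a, u a b) ∧ (∀ i ∈ P, i ∉ N → ∏ a ∈ N, u i a ≤ κ) ∧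
      (∀ B ⊆ P, ∀ β0 : ℝ, 0 ≤ β0 → (∀ i ∈ B, ∀ j ∈ B, i ≠ j → β0 ≤ u i j) → κ ≤ β0 ^ B.card →
        B.card ≤ 2 * N.card) := by
  obtain ⟨N, hN, hmax⟩ := Finset.exists_max_image P.powerset
    (fun B => W u B * (κ⁻¹) ^ (2 * B.card)) ⟨∅, Finset.empty_mem_powerset P⟩
  rw [Finset.mem_powerset] at hN
  have hκi : 0 < κ⁻¹ := inv_pos.2 hκ0
  have hmax' : ∀ B ⊆ P, W u B * (κ⁻¹) ^ (2 * B.card) ≤ W u N * (κ⁻¹) ^ (2 * N.card) :=
    fun B hB => hmax B (Finset.mem_powerset.2 hB)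
  have hΦ : 1 ≤ W u N * (κ⁻¹) ^ (2 * N.card) := by
    have := hmax' ∅ (Finset.empty_subset P)
    simpa [W] using this
  have hWN : 0 < W u N := by
    by_contra h
    have h0 : W u N = 0 := le_antisymm (not_lt.1 h) (W_nonneg u P hu0 hN)
    rw [h0, zero_mul] at hΦ
    linarith
  refine ⟨N, hN, ?_, ?_, ?_⟩
  · intro a ha
    have hPa : a ∈ P := hN ha
    have hsub : N.erase a ⊆ P := (Finset.erase_subset _ _).trans hN
    have h1 := hmax' (N.erase a) hsub
    have h2 := W_insert u (Finset.notMem_erase a N)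
      (fun b hb => hsymm b (hsub hb) a hPa)
    rw [Finset.insert_erase ha] at h2
    have hcard : N.card = (N.erase a).card + 1 := (Finset.card_erase_add_one ha).symm
    rw [h2, hcard, mul_add, pow_add] at h1
    set x := ∏ b ∈ N.erase a, u a b with hx
    have hx0 : 0 ≤ x := Finset.prod_nonneg fun b hb => hu0 a hPa b (hsub hb)
    have hWe : 0 < W u (N.erase a) := by
      have h3 := W_nonneg u P hu0 hsub
      rcases h3.lt_or_eq with h3 | h3
      · exact h3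
      · rw [h2, ← h3, zero_mul] at hWN
        exact absurd hWN (lt_irrefl _)
    have hk : 0 < (κ⁻¹) ^ (2 * (N.erase a).card) := by positivity
    have h4 : 1 ≤ x ^ 2 * (κ⁻¹) ^ 2 := by
      have h5 : (W u (N.erase a) * (κ⁻¹) ^ (2 * (N.erase a).card)) * 1 ≤
          (W u (N.erase a) * (κ⁻¹) ^ (2 * (N.erase a).card)) * (x ^ 2 * (κ⁻¹) ^ 2) := by
        calc _ = W u (N.erase a) * (κ⁻¹) ^ (2 * (N.erase a).card) := mul_one _
          _ ≤ _ := h1
          _ = _ := by ring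
      exact le_of_mul_le_mul_left h5 (by positivity)
    have h6 : 1 ≤ (x * κ⁻¹) ^ 2 := by rw [mul_pow]; exact h4
    have h7 : 1 ≤ x * κ⁻¹ := by
      by_contra h
      push Not at h
      have h8 : (x * κ⁻¹) ^ 2 < 1 := pow_lt_one₀ (by positivity) h (by norm_num)
      linarith
    rw [← div_eq_mul_inv, one_le_div hκ0] at h7
    exact h7
  · intro i hi hiN
    have hsub : insert i N ⊆ P := Finset.insert_subset hi hN
    have h1 := hmax' (insert i N) hsub
    rw [W_insert u hiN (fun b hb => hsymm b (hN hb) i hi), Finset.card_insert_of_notMem hiN,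
      mul_add, pow_add] at h1
    set x := ∏ a ∈ N, u i a with hx
    have hx0 : 0 ≤ x := Finset.prod_nonneg fun b hb => hu0 i hi b (hN hb)
    have h4 : x ^ 2 * (κ⁻¹) ^ 2 ≤ 1 := by
      have h5 : (W u N * (κ⁻¹) ^ (2 * N.card)) * (x ^ 2 * (κ⁻¹) ^ 2) ≤
          (W u N * (κ⁻¹) ^ (2 * N.card)) * 1 := by
        calc _ = W u N * x ^ 2 * ((κ⁻¹) ^ (2 * N.card) * (κ⁻¹) ^ (2 * 1)) := by ring
          _ ≤ _ := h1
          _ = _ := (mul_one _).symm
      exact le_of_mul_le_mul_left h5 (by positivity)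
    have h6 : (x * κ⁻¹) ^ 2 ≤ 1 := by rw [mul_pow]; exact h4
    have h7 : x * κ⁻¹ ≤ 1 := by
      by_contra h
      push Not at h
      have h8 : 1 < (x * κ⁻¹) ^ 2 := one_lt_pow₀ h (by norm_num)
      linarith
    rw [← div_eq_mul_inv, div_le_one hκ0] at h7
    exact h7
  · intro B hB β0 hβ0 hBu hκβ
    rcases Nat.eq_zero_or_pos B.card with h0 | hpos
    · omega
    · have h1 := hmax' B hB
      have h2 : (β0 ^ B.card) ^ (B.card - 1) ≤ W u B := by
        calc (β0 ^ B.card) ^ (B.card - 1) = ∏ a ∈ B, β0 ^ (B.card - 1) := by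
              rw [Finset.prod_const, ← pow_mul, ← pow_mul, mul_comm]
          _ ≤ ∏ a ∈ B, ∏ b ∈ B.erase a, u a b := by
              refine Finset.prod_le_prod (fun a _ => by positivity) (fun a ha => ?_)
              rw [← Finset.card_erase_of_mem ha, ← Finset.prod_const]
              refine Finset.prod_le_prod (fun b _ => hβ0) (fun b hb => ?_)
              exact hBu a ha b (Finset.mem_of_mem_erase hb) (Finset.ne_of_mem_erase hb).symm
      have h3 : κ ^ (B.card - 1) ≤ W u B :=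
        le_trans (pow_le_pow_left₀ hκ0.le hκβ _) h2
      have h4 : (κ⁻¹) ^ (B.card + 1) ≤ (κ⁻¹) ^ (2 * N.card) := by
        calc (κ⁻¹) ^ (B.card + 1) = κ ^ (B.card - 1) * (κ⁻¹) ^ (2 * B.card) := by
              have e : 2 * B.card = (B.card - 1) + (B.card + 1) := by omega
              rw [e, pow_add (κ⁻¹) (B.card - 1), ← mul_assoc, ← mul_pow,
                mul_inv_cancel₀ hκ0.ne', one_pow, one_mul]
          _ ≤ W u B * (κ⁻¹) ^ (2 * B.card) := by gcongr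
          _ ≤ W u N * (κ⁻¹) ^ (2 * N.card) := h1
          _ ≤ 1 * (κ⁻¹) ^ (2 * N.card) := by
              have := W_le_one u P hu0 hu1 hN
              gcongr
          _ = _ := one_mul _
      have h5 : 1 < κ⁻¹ := (one_lt_inv₀ hκ0).2 hκ1
      have h6 := (pow_le_pow_iff_right₀ h5).1 h4
      omega

/-- NODES*, second level inside the first -/
theorem exists_subnodes (N : Finset ι) (u : ι → ι → ℝ) (hu0 : ∀ i ∈ N, ∀ j ∈ N, 0 ≤ u i j)
    (hu1 : ∀ i ∈ N, ∀ j ∈ N, u i j ≤ 1) (hsymm : ∀ i ∈ N, ∀ j ∈ N, u i j = u j i)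
    (lam : ℝ) (hl0 : 0 < lam) (hl1 : lam < 1) (q : ℕ)
    (hN : ∀ a ∈ N, lam ^ q ≤ ∏ b ∈ N.erase a, u a b) :
    ∃ N' ⊆ N, (∀ a ∈ N', lam ≤ ∏ b ∈ N'.erase a, u a b) ∧ N.card ≤ (q + 1) * N'.card := by
  obtain ⟨N', hN', h1, h2, -⟩ := exists_nodes N u hu0 hu1 hsymm lam hl0 hl1
  refine ⟨N', hN', h1, ?_⟩
  have h3 : ∏ i ∈ N \ N', ∏ a ∈ N', u i a ≤ lam ^ (N.card - N'.card) := by
    rw [← Finset.card_sdiff_of_subset hN', ← Finset.prod_const]
    refine Finset.prod_le_prod (fun i hi => Finset.prod_nonneg fun a ha =>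
      hu0 i (Finset.mem_sdiff.1 hi).1 a (hN' ha)) (fun i hi => ?_)
    exact h2 i (Finset.mem_sdiff.1 hi).1 (Finset.mem_sdiff.1 hi).2
  have h4 : (lam ^ q) ^ N'.card ≤ ∏ a ∈ N', ∏ i ∈ N \ N', u i a := by
    rw [← Finset.prod_const]
    refine Finset.prod_le_prod (fun a _ => by positivity) (fun a ha => ?_)
    refine le_trans (hN a (hN' ha)) ?_
    have hsub : N \ N' ⊆ N.erase a := by
      intro i hi
      rw [Finset.mem_sdiff] at hi
      refine Finset.mem_erase.2 ⟨?_, hi.1⟩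
      rintro rfl
      exact hi.2 ha
    rw [← Finset.prod_sdiff hsub]
    have h5 : ∏ x ∈ N.erase a \ (N \ N'), u a x ≤ 1 := by
      refine Finset.prod_le_one (fun b hb => ?_) (fun b hb => ?_)
      · exact hu0 a (hN' ha) b (Finset.mem_of_mem_erase (Finset.mem_sdiff.1 hb).1)
      · exact hu1 a (hN' ha) b (Finset.mem_of_mem_erase (Finset.mem_sdiff.1 hb).1)
    have h6 : ∏ x ∈ N \ N', u a x = ∏ x ∈ N \ N', u x a :=
      Finset.prod_congr rfl (fun x hx => hsymm a (hN' ha) x (Finset.mem_sdiff.1 hx).1)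
    rw [h6]
    have h7 : 0 ≤ ∏ x ∈ N \ N', u x a :=
      Finset.prod_nonneg fun x hx => hu0 x (Finset.mem_sdiff.1 hx).1 a (hN' ha)
    calc _ ≤ 1 * ∏ x ∈ N \ N', u x a := mul_le_mul_of_nonneg_right h5 h7
      _ = _ := one_mul _
  rw [Finset.prod_comm] at h4
  have h5 := le_trans h4 h3
  rw [← pow_mul] at h5
  have h6 : N.card - N'.card ≤ q * N'.card :=
    (pow_le_pow_iff_right_of_lt_one₀ hl0 hl1).1 h5
  have h7 : (q + 1) * N'.card = q * N'.card + N'.card := by ring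
  omega

end Nodes

end Pool.Agent.Helper94.ES
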